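import Pool.Agent.H59.IRG.Iso

/-!
# MP_ed2cb0_co: connected claw-free IR-graphs

For every `a`, the lollipop made of the path `0, 1, .., 5` and a complete graph on `5, 6, .., 6 + a`
(the path on seven vertices for `a = 0`) is a connected claw-free IR-graph which is neither complete
nor a product of two complete graphs.
-/

set_option autoImplicit false

namespace Pool.Agent.Results.MP_ed2cb0_co.LollipopFamily

open Pool.Agent.H59.IRG

/-- Every lollipop is a connected claw-free IR-graph that is neither complete nor isomorphic to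
`K_m □ K_n` with `m, n ≥ 2`. -/
theorem result (a : ℕ) :
    IsIRGraph (lollipop a) ∧ (lollipop a).Connected ∧ ClawFree (lollipop a) ∧
    ¬ (∃ n : ℕ, Nonempty (lollipop a ≃g (⊤ : SimpleGraph (Fin n)))) ∧
    ¬ (∃ m n : ℕ, 2 ≤ m ∧ 2 ≤ n ∧
      Nonempty (lollipop a ≃g ((⊤ : SimpleGraph (Fin m)) □ (⊤ : SimpleGraph (Fin n))))) := by
  refine ⟨isIRGraph a, connected a, clawFree a, ?_, ?_⟩
  · rintro ⟨n, ⟨f⟩⟩
    exact (not_complete a (Fin n)).false f
  · rintro ⟨m, n, hm, hn, ⟨f⟩⟩
    exact (not_box a m n hm hn).false f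

end Pool.Agent.Results.MP_ed2cb0_co.LollipopFamily
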